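import Pool.Agent.T18_68.Basic

/-!
Note 3205: `Stmt_NearY`.
-/

set_option autoImplicit false

namespace Pool.Agent.T18_88

open Pool.Agent.T18 Pool.Agent.T18_68

section

variable {W : Type} [AddCommGroup W] [Module (ZMod 2) W]

/-- adjoining one vector doubles the cardinality -/
theorem card_sup_span (K : Submodule (ZMod 2) W) (a : W) (ha : a ∉ K) :
    Nat.card (K ⊔ Submodule.span (ZMod 2) {a} : Submodule (ZMod 2) W) = 2 * Nat.card K := by
  have hmem : ∀ (k : K) (r : ZMod 2), (k : W) + r • a ∈ K ⊔ Submodule.span (ZMod 2) {a} :=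
    fun k r => Submodule.add_mem_sup k.2 (Submodule.smul_mem _ _ (Submodule.mem_span_singleton_self a))
  have e : (K × ZMod 2) ≃ (K ⊔ Submodule.span (ZMod 2) {a} : Submodule (ZMod 2) W) := by
    refine Equiv.ofBijective (fun p => ⟨(p.1 : W) + p.2 • a, hmem p.1 p.2⟩) ⟨?_, ?_⟩
    · rintro ⟨k, r⟩ ⟨k', r'⟩ h
      have h1 : (k : W) + r • a = k' + r' • a := congrArg Subtype.val h
      have h2 : (r - r') • a = (k' : W) - k := by
        rw [sub_smul]
        rw [sub_eq_sub_iff_add_eq_add]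
        rw [add_comm, h1, add_comm]
      have h3 : (r - r') • a ∈ K := by
        rw [h2]
        exact K.sub_mem k'.2 k.2
      have h4 : r = r' := by
        by_contra hne
        have h5 : r - r' = 1 := by
          have : ∀ x y : ZMod 2, x ≠ y → x - y = 1 := by decide
          exact this r r' hne
        rw [h5, one_smul] at h3
        exact ha h3
      subst h4
      have h6 : (k : W) = k' := add_right_cancel h1
      rw [Subtype.ext h6]
    · rintro ⟨x, hx⟩
      obtain ⟨k, hk, z, hz, rfl⟩ := Submodule.mem_sup.1 hx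
      obtain ⟨r, rfl⟩ := Submodule.mem_span_singleton.1 hz
      exact ⟨(⟨k, hk⟩, r), rfl⟩
  rw [← Nat.card_congr e, Nat.card_prod, Nat.card_zmod, mul_comm]

theorem eq_of_le_of_card [Finite W] {K K' : Submodule (ZMod 2) W} (h : K ≤ K')
    (h' : Nat.card K' ≤ Nat.card K) : K = K' := by
  apply SetLike.coe_injective
  refine Set.eq_of_subset_of_ncard_le h ?_ (Set.toFinite _)
  rw [← Nat.card_coe_set_eq, ← Nat.card_coe_set_eq]
  exact h'

end

theorem nearY : Stmt_NearY := by
  intro V W B _ _ _ _ _ _ _ _ β c l K v0 y lam h hK hn hyS hy hyK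
  rcases hn.all y hyS hyK with rfl | hyl
  · exact ⟨lam, hn⟩
  have hKpos : 0 < Nat.card K := Nat.card_pos
  have hv0 : v0 ≠ 0 := by
    rintro rfl
    obtain ⟨w, hw⟩ := hn.v0S
    rw [map_zero, LinearMap.zero_apply] at hw
    exact h.c0 hw.symm
  have hyv0 : y ≠ v0 := by
    rintro rfl
    exact hn.v0lam hyl
  -- the line of a point of `M_K` is not in `K`
  have hlK : ∀ u v, InS β c u → InS β c v → v ∈ VK β K → u ≠ v → l u ∉ K := by
    intro u v hu hv hvK huv hlu
    exact huv (sixe h hv hu (hvK _ hlu)).symm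
  have hWy : Nat.card (Wv β y) = 2 * Nat.card K := by
    rw [hn.wL y hyK hyl]
    exact card_sup_span K (l y) (hlK y v0 hyS hn.v0S hn.v0K hyv0)
  have hcardL : Nat.card {u // u ∈ VK β K ∧ β u lam = c} ≤ 2 := by
    have h1 := hn.card
    have h2 := hy.2 v0 hv0
    rw [hWy, ← h1] at h2
    exact Nat.le_of_mul_le_mul_right h2 hKpos
  -- a second point of `L`
  obtain ⟨u, huK, hul, huy⟩ : ∃ u, u ∈ VK β K ∧ β u lam = c ∧ u ≠ y := by
    obtain ⟨u, u1, h1, h2, h3, h4, h5⟩ := hn.two
    by_cases e : u = y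
    · refine ⟨u1, h2, h4, ?_⟩
      rintro rfl
      exact h5 e
    · exact ⟨u, h1, h3, e⟩
  have huS : InS β c u := ⟨_, hul⟩
  have huv0 : u ≠ v0 := by
    rintro rfl
    exact hn.v0lam hul
  have hL : ∀ t, t ∈ VK β K → β t lam = c → t = y ∨ t = u := by
    intro t htK htl
    by_contra hne
    push Not at hne
    have h3 : ({y, u, t} : Set V).ncard = 3 := by
      rw [Set.ncard_eq_three]
      exact ⟨y, u, t, huy.symm, hne.1.symm, hne.2.symm, rfl⟩
    have h4 : ({y, u, t} : Set V) ⊆ {u | u ∈ VK β K ∧ β u lam = c} := by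
      intro x hx
      rcases hx with rfl | rfl | rfl
      · exact ⟨hyK, hyl⟩
      · exact ⟨huK, hul⟩
      · exact ⟨htK, htl⟩
    have h5 := Set.ncard_le_ncard h4 (Set.toFinite _)
    rw [h3] at h5
    have h6 : Nat.card {u // u ∈ VK β K ∧ β u lam = c} =
        ({u | u ∈ VK β K ∧ β u lam = c} : Set V).ncard := rfl
    omega
  have hcard2 : Nat.card {u // u ∈ VK β K ∧ β u lam = c} = 2 := by
    have h4 : ({u | u ∈ VK β K ∧ β u lam = c} : Set V) = {y, u} := by
      ext t
      constructor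
      · rintro ⟨h1, h2⟩
        exact hL t h1 h2
      · rintro (rfl | rfl)
        · exact ⟨hyK, hyl⟩
        · exact ⟨huK, hul⟩
    show ({u | u ∈ VK β K ∧ β u lam = c} : Set V).ncard = 2
    rw [h4, Set.ncard_pair huy.symm]
  -- the new line
  obtain ⟨w, hw1, hw2⟩ := link h.flat hn.v0S huS
  have hyw : β y w ≠ c := by
    intro hyw
    have h1 : w + lam ∈ Wv β u ⊓ Wv β y := by
      refine ⟨?_, ?_⟩
      · rw [SetLike.mem_coe, mem_Wv, map_add, hw2, hul, ZModModule.add_self]
      · rw [SetLike.mem_coe, mem_Wv, map_add, hyw, hyl, ZModModule.add_self]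
    have h2 : Wv β u ⊓ Wv β y = K :=
      hK.max u y huS hyS huy (le_inf (fun k hk => mem_Wv.2 (huK k hk))
        (fun k hk => mem_Wv.2 (hyK k hk)))
    rw [h2] at h1
    have h3 := hn.v0K _ h1
    rw [map_add, hw1] at h3
    apply hn.v0lam
    have h4 : c + (c + β v0 lam) = c + 0 := by rw [h3]
    rwa [← add_assoc, ZModModule.add_self, zero_add, add_zero] at h4
  have hall : ∀ t, InS β c t → t ∈ VK β K → t = v0 ∨ t = y ∨ t = u := by
    intro t ht htK
    rcases hn.all t ht htK with h1 | h1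
    · exact Or.inl h1
    · exact Or.inr (hL t htK h1)
  have hset : ({t | t ∈ VK β K ∧ β t w = c} : Set V) = {v0, u} := by
    ext t
    constructor
    · rintro ⟨h1, h2⟩
      rcases hall t ⟨_, h2⟩ h1 with rfl | rfl | rfl
      · exact Or.inl rfl
      · exact absurd h2 hyw
      · exact Or.inr rfl
    · rintro (rfl | rfl)
      · exact ⟨hn.v0K, hw1⟩
      · exact ⟨huK, hw2⟩
  have hWv0 : K ⊔ Submodule.span (ZMod 2) {l v0} = Wv β v0 := by
    apply eq_of_le_of_card
    · refine sup_le (fun k hk => mem_Wv.2 (hn.v0K k hk)) ?_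
      rw [Submodule.span_singleton_le_iff_mem]
      exact mem_Wv.2 (h.kill v0 hn.v0S)
    · rw [card_sup_span K (l v0) (hlK v0 y hn.v0S hyS hyK hyv0.symm), ← hn.card, hcard2]
  refine ⟨w, hyS, hyK, hyw, ?_, ?_, ?_, ?_⟩
  · intro t ht htK
    rcases hall t ht htK with rfl | rfl | rfl
    · exact Or.inr hw1
    · exact Or.inl rfl
    · exact Or.inr hw2
  · exact ⟨v0, u, hn.v0K, huK, hw1, hw2, huv0.symm⟩
  · intro t htK htw
    have : t ∈ ({v0, u} : Set V) := by
      rw [← hset]
      exact ⟨htK, htw⟩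
    rcases this with rfl | rfl
    · exact hWv0.symm
    · exact hn.wL _ htK hul
  · have h1 : Nat.card {t // t ∈ VK β K ∧ β t w = c} = 2 := by
      show ({t | t ∈ VK β K ∧ β t w = c} : Set V).ncard = 2
      rw [hset, Set.ncard_pair huv0.symm]
    rw [h1, hWy]

end Pool.Agent.T18_88
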